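import Mathlib

set_option autoImplicit false

/-!
# MP_870dc7_co: growth of infinite monochromatic sumsets

For every function `H` with `H(N) / N → 0` and every finite colouring of the positive integers there
are infinite sets `B`, `C` of positive integers such that `B + C` is monochromatic, `H(N) ≤ B(N)` for
infinitely many `N` and `H(N) ≤ C(N)` for infinitely many `N`.

So no growth function `H = o(N)` has the property asked for in the question (already with two
colours).
-/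

namespace Pool.Agent.Results.MP_870dc7_co.DenseInfinitelyOften

open Filter Topology

/-- the counting function `S(N) = |S ∩ {1, ..., N}|` -/
noncomputable def count (S : Set ℕ) (N : ℕ) : ℕ := (S ∩ Set.Icc 1 N).ncard

theorem count_mono {S T : Set ℕ} (h : S ⊆ T) (N : ℕ) : count S N ≤ count T N :=
  Set.ncard_le_ncard (Set.inter_subset_inter_left _ h) ((Set.finite_Icc 1 N).inter_of_right _)

theorem count_union (S T : Set ℕ) (N : ℕ) : count (S ∪ T) N ≤ count S N + count T N := by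
  unfold count
  rw [Set.union_inter_distrib_right]
  exact Set.ncard_union_le _ _

/-- the filter of the sets whose complement has density `0` -/
def coZero : Filter ℕ where
  sets := {S | Tendsto (fun N : ℕ => (count Sᶜ N : ℝ) / N) atTop (𝓝 0)}
  univ_sets := by
    simp only [Set.mem_ofPred_eq, Set.compl_univ]
    have : ∀ N : ℕ, count (∅ : Set ℕ) N = 0 := by intro N; simp [count]
    simp only [this]
    simp
  sets_of_superset := by
    intro S T hS hST
    simp only [Set.mem_ofPred_eq] at hS ⊢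
    refine squeeze_zero (fun N => by positivity) (fun N => ?_) hS
    have := count_mono (Set.compl_subset_compl.2 hST) N
    gcongr
  inter_sets := by
    intro S T hS hT
    simp only [Set.mem_ofPred_eq] at hS hT ⊢
    have h := hS.add hT
    rw [add_zero] at h
    refine squeeze_zero (fun N => by positivity) (fun N => ?_) h
    rw [Set.compl_inter, ← add_div]
    have := count_union Sᶜ Tᶜ N
    gcongr
    exact_mod_cast this

theorem count_univ (N : ℕ) : count Set.univ N = N := by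
  unfold count
  rw [Set.univ_inter]
  have : (Set.Icc 1 N) = ((Finset.Icc 1 N : Finset ℕ) : Set ℕ) := by simp
  rw [this, Set.ncard_coe_finset]
  simp

instance : coZero.NeBot := by
  refine ⟨fun h => ?_⟩
  have h1 : (∅ : Set ℕ) ∈ coZero := by rw [h]; exact Filter.mem_bot
  have h2 : Tendsto (fun N : ℕ => (count (∅ : Set ℕ)ᶜ N : ℝ) / N) atTop (𝓝 0) := h1
  have h3 : Tendsto (fun N : ℕ => (count (∅ : Set ℕ)ᶜ N : ℝ) / N) atTop (𝓝 1) := by
    refine tendsto_const_nhds.congr' ?_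
    filter_upwards [eventually_gt_atTop 0] with N hN
    rw [Set.compl_empty, count_univ]
    have : (N : ℝ) ≠ 0 := by positivity
    field_simp
  exact zero_ne_one (tendsto_nhds_unique h2 h3)

/-- an ultrafilter all of whose members have positive upper density -/
noncomputable def q : Ultrafilter ℕ := Ultrafilter.of coZero

theorem q_le : (q : Filter ℕ) ≤ coZero := Ultrafilter.of_le _

/-- finite sets are not members of `q` -/
theorem compl_finite_mem {S : Set ℕ} (hS : S.Finite) : Sᶜ ∈ q := by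
  apply q_le
  show Tendsto (fun N : ℕ => (count Sᶜᶜ N : ℝ) / N) atTop (𝓝 0)
  rw [compl_compl]
  have h1 : ∀ N : ℕ, (count S N : ℝ) / N ≤ (S.ncard : ℝ) / N := by
    intro N
    have : count S N ≤ S.ncard := Set.ncard_le_ncard Set.inter_subset_left hS
    gcongr
  refine squeeze_zero (fun N => by positivity) h1 ?_
  exact tendsto_const_div_atTop_nhds_zero_nat _

/-- the members of `q` have more than `H(N)` elements up to `N` infinitely often -/
theorem frequently_count (H : ℕ → ℕ) (hH : Tendsto (fun N : ℕ => (H N : ℝ) / N) atTop (𝓝 0))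
    {S : Set ℕ} (hS : S ∈ q) : ∃ᶠ N in atTop, H N ≤ count S N := by
  intro hcon
  simp only [not_le] at hcon
  have h1 : Tendsto (fun N : ℕ => (count S N : ℝ) / N) atTop (𝓝 0) := by
    refine squeeze_zero' (Eventually.of_forall fun N => by positivity) ?_ hH
    filter_upwards [hcon] with N hN
    have : count S N ≤ H N := hN.le
    gcongr
  have h2 : Sᶜ ∈ coZero := by
    show Tendsto (fun N : ℕ => (count Sᶜᶜ N : ℝ) / N) atTop (𝓝 0)
    rwa [compl_compl]
  have h3 : Sᶜ ∈ q := q_le h2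
  exact (Ultrafilter.compl_mem_iff_notMem.1 h3) hS

/-- **Theorem.** Let `H` be a function with `H(N) / N → 0`. For every colouring `c` of the natural
numbers with finitely many colours there are infinite sets `B`, `C` of positive integers such that
all sums `b + c` with `b ∈ B`, `c ∈ C` have one colour, `H(N) ≤ |B ∩ {1, ..., N}|` for infinitely many
`N`, and `H(N) ≤ |C ∩ {1, ..., N}|` for infinitely many `N`. -/
theorem result (H : ℕ → ℕ) (hH : Tendsto (fun N : ℕ => (H N : ℝ) / N) atTop (𝓝 0))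
    {κ : Type} [Finite κ] (c : ℕ → κ) :
    ∃ B C : Set ℕ, B.Infinite ∧ C.Infinite ∧ (∀ b ∈ B, 0 < b) ∧ (∀ x ∈ C, 0 < x) ∧
      (∃ i : κ, ∀ b ∈ B, ∀ x ∈ C, c (b + x) = i) ∧
      (∃ᶠ N in atTop, H N ≤ count B N) ∧ (∃ᶠ N in atTop, H N ≤ count C N) := by
  classical
  -- the limit colour of `x + y` as `y → q`
  have hcol : ∀ x : ℕ, ∃ i : κ, {y | c (x + y) = i} ∈ q := by
    intro x
    obtain ⟨i, hi⟩ := Ultrafilter.eq_pure_of_finite (q.map fun y => c (x + y))
    refine ⟨i, ?_⟩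
    have : ({i} : Set κ) ∈ q.map fun y => c (x + y) := by rw [hi]; exact Ultrafilter.mem_pure.2 rfl
    exact this
  choose d hd using hcol
  obtain ⟨i, hi⟩ := Ultrafilter.eq_pure_of_finite (q.map d)
  have hX : {x | d x = i} ∈ q := by
    have : ({i} : Set κ) ∈ q.map d := by rw [hi]; exact Ultrafilter.mem_pure.2 rfl
    exact this
  set X : Set ℕ := {x | d x = i ∧ 0 < x} with hXdef
  have hXq : X ∈ q := by
    have h0 : ({0} : Set ℕ)ᶜ ∈ q := compl_finite_mem (Set.finite_singleton 0)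
    filter_upwards [hX, h0] with x hx hx0
    exact ⟨hx, Nat.pos_of_ne_zero hx0⟩
  have hXs : ∀ x ∈ X, {y | c (x + y) = i} ∈ q := by
    intro x hx
    have := hd x
    rwa [hx.1] at this
  -- the states of the construction
  let P : Finset ℕ × Finset ℕ → Prop := fun S =>
    (∀ b ∈ S.1, b ∈ X) ∧ (∀ x ∈ S.2, x ∈ X) ∧ ∀ b ∈ S.1, ∀ x ∈ S.2, c (b + x) = i
  have step1 : ∀ (j : ℕ) (S : Finset ℕ × Finset ℕ), P S →
      ∃ S' : Finset ℕ × Finset ℕ, P S' ∧ S.1 ⊆ S'.1 ∧ S.2 ⊆ S'.2 ∧ (∃ b ∈ S'.1, j ≤ b) ∧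
        ∃ N ≥ j, H N ≤ count (S'.1 : Set ℕ) N := by
    intro j S hS
    have hY : {y | y ∈ X ∧ ∀ x ∈ S.2, c (y + x) = i} ∈ q := by
      have h1 : ∀ x ∈ S.2, {y | c (y + x) = i} ∈ (q : Filter ℕ) := by
        intro x hx
        have := hXs x (hS.2.1 x hx)
        simp only [add_comm x] at this
        exact this
      have h2 : (⋂ x ∈ S.2, {y | c (y + x) = i}) ∈ (q : Filter ℕ) :=
        (Filter.biInter_finset_mem S.2).2 h1
      filter_upwards [hXq, h2] with y hy1 hy2
      refine ⟨hy1, fun x hx => ?_⟩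
      simp only [Set.mem_iInter] at hy2
      exact hy2 x hx
    set Y : Set ℕ := {y | y ∈ X ∧ ∀ x ∈ S.2, c (y + x) = i} with hYdef
    obtain ⟨N, hN1, hN2⟩ := ((frequently_count H hH hY).and_eventually
      (eventually_ge_atTop j)).exists
    -- an element of `Y` beyond `j`
    have hne : ∃ y ∈ Y, j ≤ y := by
      have h3 : (Set.Iio j)ᶜ ∈ q := compl_finite_mem (Set.finite_Iio j)
      obtain ⟨y, hy⟩ := Ultrafilter.nonempty_of_mem (Filter.inter_mem hY h3)
      exact ⟨y, hy.1, not_lt.1 hy.2⟩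
    obtain ⟨y0, hy0, hy0j⟩ := hne
    have hfin : (Y ∩ Set.Icc 1 N).Finite := (Set.finite_Icc 1 N).inter_of_right _
    refine ⟨(S.1 ∪ hfin.toFinset ∪ {y0}, S.2), ⟨?_, hS.2.1, ?_⟩, ?_, subset_rfl, ?_, N, hN2, ?_⟩
    · intro b hb
      simp only [Finset.mem_union, Set.Finite.mem_toFinset, Finset.mem_singleton] at hb
      rcases hb with (hb | hb) | hb
      · exact hS.1 b hb
      · exact hb.1.1
      · rw [hb]; exact hy0.1
    · intro b hb x hx
      simp only [Finset.mem_union, Set.Finite.mem_toFinset, Finset.mem_singleton] at hb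
      rcases hb with (hb | hb) | hb
      · exact hS.2.2 b hb x hx
      · exact hb.1.2 x hx
      · rw [hb]; exact hy0.2 x hx
    · intro b hb
      simp [hb]
    · exact ⟨y0, by simp, hy0j⟩
    · refine hN1.trans ?_
      unfold count
      apply Set.ncard_le_ncard _ ((Set.finite_Icc 1 N).inter_of_right _)
      intro y hy
      refine ⟨?_, hy.2⟩
      simp only [Finset.coe_union, Set.Finite.coe_toFinset, Finset.coe_singleton]
      exact Or.inl (Or.inr hy)
  have step2 : ∀ (j : ℕ) (S : Finset ℕ × Finset ℕ), P S →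
      ∃ S' : Finset ℕ × Finset ℕ, P S' ∧ S.1 ⊆ S'.1 ∧ S.2 ⊆ S'.2 ∧ (∃ b ∈ S'.2, j ≤ b) ∧
        ∃ N ≥ j, H N ≤ count (S'.2 : Set ℕ) N := by
    intro j S hS
    have hS' : P S.swap := ⟨hS.2.1, hS.1, fun b hb x hx => by
      rw [add_comm]; exact hS.2.2 x hx b hb⟩
    obtain ⟨T, hT, h1, h2, h3, h4⟩ := step1 j S.swap hS'
    exact ⟨T.swap, ⟨hT.2.1, hT.1, fun b hb x hx => by rw [add_comm]; exact hT.2.2 x hx b hb⟩,
      h2, h1, h3, h4⟩
  have step : ∀ (j : ℕ) (S : Finset ℕ × Finset ℕ), P S →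
      ∃ S' : Finset ℕ × Finset ℕ, P S' ∧ S.1 ⊆ S'.1 ∧ S.2 ⊆ S'.2 ∧ (∃ b ∈ S'.1, j ≤ b) ∧
        (∃ b ∈ S'.2, j ≤ b) ∧ (∃ N ≥ j, H N ≤ count (S'.1 : Set ℕ) N) ∧
        ∃ N ≥ j, H N ≤ count (S'.2 : Set ℕ) N := by
    intro j S hS
    obtain ⟨T, hT, h1, h2, ⟨b, hb, hjb⟩, N, hN, hHN⟩ := step1 j S hS
    obtain ⟨U, hU, k1, k2, k3, k4⟩ := step2 j T hT
    exact ⟨U, hU, h1.trans k1, h2.trans k2, ⟨b, k1 hb, hjb⟩, k3,
      ⟨N, hN, hHN.trans (count_mono (by exact_mod_cast k1) N)⟩, k4⟩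
  choose f hf using step
  -- the sequence of states
  let s : ℕ → {S : Finset ℕ × Finset ℕ // P S} := fun n =>
    Nat.rec ⟨(∅, ∅), by simp [P]⟩ (fun j S => ⟨f j S.1 S.2, (hf j S.1 S.2).1⟩) n
  have hs : ∀ j, (s (j + 1)).1 = f j (s j).1 (s j).2 := fun j => rfl
  have hsB : Monotone fun j => (s j).1.1 := monotone_nat_of_le_succ fun j => by
    rw [hs]; exact (hf j (s j).1 (s j).2).2.1
  have hsC : Monotone fun j => (s j).1.2 := monotone_nat_of_le_succ fun j => by
    rw [hs]; exact (hf j (s j).1 (s j).2).2.2.1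
  set B : Set ℕ := {b | ∃ j, b ∈ (s j).1.1} with hB
  set C : Set ℕ := {x | ∃ j, x ∈ (s j).1.2} with hC
  have hBs : ∀ j, ((s j).1.1 : Set ℕ) ⊆ B := fun j b hb => ⟨j, hb⟩
  have hCs : ∀ j, ((s j).1.2 : Set ℕ) ⊆ C := fun j b hb => ⟨j, hb⟩
  refine ⟨B, C, ?_, ?_, ?_, ?_, ⟨i, ?_⟩, ?_, ?_⟩
  · refine Set.infinite_of_forall_exists_gt fun j => ?_
    obtain ⟨b, hb, hjb⟩ := (hf (j + 1) (s (j + 1)).1 (s (j + 1)).2).2.2.2.1
    exact ⟨b, ⟨j + 2, by rw [hs]; exact hb⟩, by omega⟩
  · refine Set.infinite_of_forall_exists_gt fun j => ?_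
    obtain ⟨b, hb, hjb⟩ := (hf (j + 1) (s (j + 1)).1 (s (j + 1)).2).2.2.2.2.1
    exact ⟨b, ⟨j + 2, by rw [hs]; exact hb⟩, by omega⟩
  · rintro b ⟨j, hb⟩
    exact ((s j).2.1 b hb).2
  · rintro b ⟨j, hb⟩
    exact ((s j).2.2.1 b hb).2
  · rintro b ⟨j, hb⟩ x ⟨k, hx⟩
    exact (s (max j k)).2.2.2 b (hsB (le_max_left j k) hb) x (hsC (le_max_right j k) hx)
  · rw [frequently_atTop]
    intro j
    obtain ⟨N, hN, hHN⟩ := (hf j (s j).1 (s j).2).2.2.2.2.2.1
    refine ⟨N, hN, hHN.trans ?_⟩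
    have := hBs (j + 1)
    rw [hs] at this
    exact count_mono this N
  · rw [frequently_atTop]
    intro j
    obtain ⟨N, hN, hHN⟩ := (hf j (s j).1 (s j).2).2.2.2.2.2.2
    refine ⟨N, hN, hHN.trans ?_⟩
    have := hCs (j + 1)
    rw [hs] at this
    exact count_mono this N

end Pool.Agent.Results.MP_870dc7_co.DenseInfinitelyOften
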